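import Pool.Agent.Lib.MP_631487_nt.Ineq

/-!
# Lang-Trotter: from one prime to the average over auxiliary primes, without loss

`splitCount a x l r` is the number of primes `p ≤ x` with `a_p ≡ r` modulo `l` and `a_p ^ 2 - 4 p`
a non-zero square modulo `l` (the quantity that Chebotarev type theorems bound).

(i) Unconditionally, for every `x`, every finite set `P` of primes `≥ 15` with product `≤ x` and
every integer `A`, the number of primes `p ≤ x` with `a_p = A` is at most four times the mean value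
of `splitCount a x l A` over `l` in `P`, plus `4 x (13 / 14) ^ #P`.

(ii) If `splitCount a x l r ≤ C x / (l log x)` whenever `l log l ≤ c log x` (Thorner and Zaman), the
number of primes `p ≤ x` with `a_p = A` is at most `C' x log log x / (log x) ^ 2`, uniformly in `A`.
-/

open Finset

namespace Pool.Agent.Results.MP_631487_nt.AveragedPrimes

/-- the number of primes `p ≤ x` with `a_p ≡ r` modulo `l` and `a_p ^ 2 - 4 p` a non-zero square
modulo `l` -/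
def splitCount (a : ℕ → ℤ) (N l : ℕ) (r : ℤ) : ℕ :=
  #((range (N + 1)).filter fun p => p.Prime ∧ (l : ℤ) ∣ a p - r ∧
    jacobiSym (a p ^ 2 - 4 * (p : ℤ)) l = 1)

theorem result (N : ℕ) (_hN : 0 < N) (f : CuspForm (CongruenceSubgroup.Gamma0 N) 2) (a : ℕ → ℤ)
    (_hf : ∀ τ : UpperHalfPlane, HasSum
      (fun n : ℕ => (a (n + 1) : ℂ) *
        Complex.exp (2 * (Real.pi : ℂ) * Complex.I * ((n : ℂ) + 1) * (τ : ℂ))) (f τ))
    (_h1 : a 1 = 1)
    (_hmul : ∀ m n : ℕ, Nat.Coprime m n → a (m * n) = a m * a n)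
    (_hT : ∀ p k : ℕ, p.Prime → ¬ p ∣ N →
      a (p ^ (k + 2)) = a p * a (p ^ (k + 1)) - (p : ℤ) * a (p ^ k))
    (_hU : ∀ p k : ℕ, p.Prime → p ∣ N → a (p ^ (k + 1)) = a p * a (p ^ k))
    (_hCM : ¬ ∃ (M : ℕ) (χ : DirichletCharacter ℂ M), 0 < M ∧ χ ≠ 1 ∧ χ ^ 2 = 1 ∧
      {p : ℕ | p.Prime ∧ χ (p : ZMod M) * (a p : ℂ) ≠ (a p : ℂ)}.Finite) :
    (∀ x : ℝ, 1 ≤ x → ∀ P : Finset ℕ, P.Nonempty → (∀ l ∈ P, l.Prime ∧ 15 ≤ l) →
      ((∏ l ∈ P, l : ℕ) : ℝ) ≤ x → ∀ A : ℤ,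
      (#((range (⌊x⌋₊ + 1)).filter fun p => p.Prime ∧ a p = A) : ℝ)
        ≤ 4 / #P * ∑ l ∈ P, (splitCount a ⌊x⌋₊ l A : ℝ) + 4 * x * (13 / 14 : ℝ) ^ #P) ∧
    ((∃ c C x₀ : ℝ, 0 < c ∧ ∀ x : ℝ, x₀ ≤ x → ∀ l : ℕ, l.Prime →
        (l : ℝ) * Real.log l ≤ c * Real.log x → ∀ r : ℤ,
        (splitCount a ⌊x⌋₊ l r : ℝ) ≤ C * (x / (l * Real.log x))) →
      ∃ C : ℝ, ∀ᶠ x : ℝ in Filter.atTop, ∀ A : ℤ,
        (#((range (⌊x⌋₊ + 1)).filter fun p => p.Prime ∧ a p = A) : ℝ)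
          ≤ C * (x * Real.log (Real.log x) / (Real.log x) ^ 2)) :=
  ⟨fun x hx P hPne hP hprod A => MP631487.averaged a x hx P hPne hP hprod A,
    fun hTZ => MP631487.main a hTZ⟩

end Pool.Agent.Results.MP_631487_nt.AveragedPrimes
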